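import Pool.Agent.TH57.AZ.Kron

/-!
The machine with control of the number of unknowns: an interval of ranks. All ranks in `(0, 1]`.
-/

set_option autoImplicit false
set_option linter.unusedSectionVars false

open scoped InnerProductSpace ENNReal ComplexConjugate
open Filter Topology

namespace Pool.Agent.TH57.AZ

open Pool.Agent.W656.VA Pool.Agent.TH25.AD
open Pool.Agent.H80R2
open Pool.Agent.H80R2.BC (L2 GMat vdim IsTr LInv Equi act kerA Coef Generic)
open Pool.Agent.H812R3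

section dfn

variable {ι κ ι' H : Type} [Group H] [Fintype ι] [Fintype κ] [Fintype ι']

/-- `E` is defined over `R`, with defect `d` and `m` auxiliary unknowns -/
def DfnN (R : Subring ℂ) (E : Submodule ℂ (L2 (ι × H))) (d : ℝ) (m : ℕ) : Prop :=
  ∃ (κ ν : Type) (_ : Fintype κ) (_ : Fintype ν) (B : GMat κ ι H) (C : GMat κ ν H),
    Coef R B ∧ Coef R C ∧ vdim (kerA C) = d ∧ Fintype.card ν = m ∧
      ∀ x, x ∈ E ↔ op B x ∈ clo (op C)

/-- `s` is the rank of a matrix over `R[H]` -/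
def RVal (R : Subring ℂ) (H : Type) [Group H] (s : ℝ) : Prop :=
  ∃ (κ ι : Type) (_ : Fintype κ) (_ : Fintype ι) (A : GMat κ ι H), Coef R A ∧ rk A = s

theorem DfnN.rval {R : Subring ℂ} {E : Submodule ℂ (L2 (ι × H))} {d : ℝ} {m : ℕ}
    (h : DfnN R E d m) : RVal R H (Fintype.card ι + m - (vdim E + d)) := by
  obtain ⟨κ, ν, _, _, B, C, hB, hC, rfl, rfl, hE⟩ := h
  have e : E = pre B C := by
    ext x
    rw [hE, mem_pre]
  refine ⟨κ, ι ⊕ ν, inferInstance, inferInstance, sd B C, coef_sd hB hC, ?_⟩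
  unfold rk
  rw [vdim_sd, e, Fintype.card_sum]
  push_cast
  ring

theorem DfnN.inf {R : Subring ℂ} {E E' : Submodule ℂ (L2 (ι × H))} {d d' : ℝ} {m m' : ℕ}
    (h : DfnN R E d m) (h' : DfnN R E' d' m') : DfnN R (E ⊓ E') (d + d') (m + m') := by
  obtain ⟨κ, ν, _, _, B, C, hB, hC, rfl, rfl, hE⟩ := h
  obtain ⟨κ', ν', _, _, B', C', hB', hC', rfl, rfl, hE'⟩ := h'
  refine ⟨κ ⊕ κ', ν ⊕ ν', inferInstance, inferInstance, BC.stack B B', bd C C',
    coef_stack hB hB', coef_bd hC hC', vdim_bd C C', Fintype.card_sum, ?_⟩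
  intro x
  rw [Submodule.mem_inf, hE, hE', mem_clo_bd, pl1_stack, pl2_stack]

theorem DfnN.comap {R : Subring ℂ} {E : Submodule ℂ (L2 (ι' × H))} {d : ℝ} {m : ℕ}
    (h : DfnN R E d m) {X : GMat ι' ι H} (hX : Coef R X) :
    DfnN R (E.comap (op X : L2 (ι × H) →ₗ[ℂ] L2 (ι' × H))) d m := by
  obtain ⟨κ, ν, _, _, B, C, hB, hC, rfl, rfl, hE⟩ := h
  refine ⟨κ, ν, inferInstance, inferInstance, mulM B X, C, coef_mulM hB hX, hC, rfl, rfl, ?_⟩
  intro x
  rw [op_mulM]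
  exact hE (op X x)

theorem dfnN_lampP {R : Subring ℂ} {A : GMat κ ι H} {T : GMat Unit ι H} (hA : Coef R A)
    (hT : Coef R T) (h : kerA A ⊓ kerA T = ⊥) : DfnN R (lampP A T) 0 (Fintype.card ι) := by
  set B : GMat (Unit ⊕ κ) Unit H := BC.stack (idM H) (fun _ _ => 0) with hB
  set C : GMat (Unit ⊕ κ) ι H := BC.stack T A with hC
  have hkC : kerA C = ⊥ := by
    rw [hC, kerA_stack, inf_comm, h]
  have hkC0 : vdim (kerA C) = 0 := by rw [hkC, vdim_bot]
  have h1 : lampP A T ≤ pre B C := by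
    apply Submodule.topologicalClosure_minimal _ _ (closed_pre B C)
    rintro _ ⟨s, hs, rfl⟩
    rw [mem_pre]
    have e : op B (op T s) = op C s := by
      apply ext_pl
      · rw [hB, hC, pl1_stack, pl1_stack, op_idM]
      · rw [hB, hC, pl2_stack, pl2_stack, op_zero]
        have hs' : s ∈ kerA A := hs
        rw [kerA_eq, mem_kr] at hs'
        exact hs'.symm
    show op B (op T s) ∈ clo (op C)
    rw [e]
    exact mem_clo _ _
  have h2 : vdim (kerA (sd B C)) ≤ vdim (kerA A) := by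
    have key : ∀ x ∈ kerA (sd B C), pl1 Unit ι H x = op T (pl2 Unit ι H x) ∧
        op A (pl2 Unit ι H x) = 0 := by
      intro x hx
      rw [kerA_eq, mem_kr, op_sd, sub_eq_zero] at hx
      constructor
      · have := congrArg (pl1 Unit κ H) hx
        rwa [hB, hC, pl1_stack, pl1_stack, op_idM] at this
      · have := congrArg (pl2 Unit κ H) hx
        rw [hB, hC, pl2_stack, pl2_stack, op_zero] at this
        exact this.symm
    refine vdim_inj_le (isClosed_kerA _) (linv_kerA _) (pl2 Unit ι H) equi_pl2 (isClosed_kerA A)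
      ?_ ?_
    · intro x hx
      rw [kerA_eq, mem_kr]
      exact (key x hx).2
    · intro x hx h0
      apply ext_pl
      · rw [(key x hx).1, h0, map_zero, map_zero]
      · rw [h0, map_zero]
  rw [vdim_sd, hkC0, add_zero, ← vdim_lampP A T h] at h2
  have h3 := eq_of_vdim (closed_lampP A T) (linv_lampP A T) (closed_pre B C) (linv_pre B C) h1 h2
  refine ⟨Unit ⊕ κ, ι, inferInstance, inferInstance, B, C, ?_, coef_stack hT hA, hkC0, rfl, ?_⟩
  · apply coef_stack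
    · intro k i g
      exact coef_single _ _ R.one_mem _
    · intro k i g
      exact R.zero_mem
  · intro x
    rw [h3, mem_pre]

theorem dfnN_lampP_orth {R : Subring ℂ} (hR : ∀ c ∈ R, conj c ∈ R) {A : GMat κ ι H}
    {T : GMat Unit ι H} (hA : Coef R A) (hT : Coef R T) :
    DfnN R (lampP A T)ᗮ (Fintype.card κ - Fintype.card ι + vdim (kerA A))
      (Fintype.card κ) := by
  refine ⟨ι, κ, inferInstance, inferInstance, st T, st A, coef_st hR hT, coef_st hR hA, ?_,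
    rfl, ?_⟩
  · have h := vdim_ker_adjoint (op A) (equi_op A)
    rw [← op_st, ← kerA_eq, ← kerA_eq] at h
    linarith
  · intro y
    rw [op_st, op_st]
    have h1 : clo (ContinuousLinearMap.adjoint (op A)) = (kerA A)ᗮ := by
      rw [kerA_eq]
      exact (ContinuousLinearMap.orthogonal_ker (op A)).symm
    rw [h1, lampP, Submodule.orthogonal_closure, Submodule.mem_orthogonal,
      Submodule.mem_orthogonal]
    constructor
    · intro h s hs
      rw [ContinuousLinearMap.adjoint_inner_right]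
      exact h _ ⟨s, hs, rfl⟩
    · rintro h _ ⟨s, hs, rfl⟩
      have := h s hs
      rw [ContinuousLinearMap.adjoint_inner_right] at this
      exact this

end dfn

section sol

variable {H : Type} [Group H]

theorem dfnN_Sol (M : Mach H) {R : Subring ℂ} {d : ℝ} {p q : ℕ} (hP : DfnN R M.P 0 p)
    (hN : DfnN R M.Pᗮ d q) : DfnN R M.Sol (4 * d) (4 * q + 4 * p) := by
  have hZ : ∀ i : Fin 4, DfnN R ((M.Pᗮ).comap
      (op (rw2 i i 1 M.f) : L2 (Fin 4 × H) →ₗ[ℂ] L2 (Unit × H))) d q :=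
    fun i => hN.comap (coef_rw2 _ _ _ _)
  have h1 : DfnN R ((M.P).comap
      (op (rw2 2 0 1 M.g) : L2 (Fin 4 × H) →ₗ[ℂ] L2 (Unit × H))) 0 p := hP.comap (coef_rw2 _ _ _ _)
  have h2 : DfnN R ((M.P).comap
      (op (rw2 3 1 1 M.g) : L2 (Fin 4 × H) →ₗ[ℂ] L2 (Unit × H))) 0 p := hP.comap (coef_rw2 _ _ _ _)
  have h3 : DfnN R ((M.P).comap
      (op (rw2 1 0 M.f (M.f * M.h)) : L2 (Fin 4 × H) →ₗ[ℂ] L2 (Unit × H))) 0 p :=
    hP.comap (coef_rw2 _ _ _ _)
  have h4 : DfnN R ((M.P).comap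
      (op (rw2 3 2 M.f (M.f * M.h)) : L2 (Fin 4 × H) →ₗ[ℂ] L2 (Unit × H))) 0 p :=
    hP.comap (coef_rw2 _ _ _ _)
  have h5 := ((((hZ 0).inf (hZ 1)).inf (hZ 2)).inf (hZ 3)).inf ((h1.inf h2).inf (h3.inf h4))
  have e1 : d + d + d + d + (0 + 0 + (0 + 0)) = 4 * d := by ring
  have e3 : q + q + q + q + (p + p + (p + p)) = 4 * q + 4 * p := by ring
  rw [e1, e3] at h5
  have e2 : M.Sol = ((((M.Pᗮ).comap
      (op (rw2 0 0 1 M.f) : L2 (Fin 4 × H) →ₗ[ℂ] L2 (Unit × H)) ⊓ (M.Pᗮ).comap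
      (op (rw2 1 1 1 M.f) : L2 (Fin 4 × H) →ₗ[ℂ] L2 (Unit × H))) ⊓ (M.Pᗮ).comap
      (op (rw2 2 2 1 M.f) : L2 (Fin 4 × H) →ₗ[ℂ] L2 (Unit × H))) ⊓ (M.Pᗮ).comap
      (op (rw2 3 3 1 M.f) : L2 (Fin 4 × H) →ₗ[ℂ] L2 (Unit × H))) ⊓ (((M.P).comap
      (op (rw2 2 0 1 M.g) : L2 (Fin 4 × H) →ₗ[ℂ] L2 (Unit × H)) ⊓ (M.P).comap
      (op (rw2 3 1 1 M.g) : L2 (Fin 4 × H) →ₗ[ℂ] L2 (Unit × H))) ⊓ ((M.P).comap
      (op (rw2 1 0 M.f (M.f * M.h)) : L2 (Fin 4 × H) →ₗ[ℂ] L2 (Unit × H)) ⊓ (M.P).comap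
      (op (rw2 3 2 M.f (M.f * M.h)) : L2 (Fin 4 × H) →ₗ[ℂ] L2 (Unit × H)))) := by
    ext x
    simp only [Submodule.mem_inf, Submodule.mem_comap, ContinuousLinearMap.coe_coe, op_rw2,
      U_one, U_mul, ← map_sub]
    rw [M.mem_Sol]
    constructor
    · rintro ⟨k1, ⟨k2, k3⟩, k4, k5⟩
      exact ⟨⟨⟨⟨k1 0, k1 1⟩, k1 2⟩, k1 3⟩, ⟨k2, k3⟩, k4, k5⟩
    · rintro ⟨⟨⟨⟨a0, a1⟩, a2⟩, a3⟩, ⟨k2, k3⟩, k4, k5⟩
      refine ⟨?_, ⟨k2, k3⟩, k4, k5⟩
      intro i
      fin_cases i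
      · exact a0
      · exact a1
      · exact a2
      · exact a3
  rw [e2]
  exact h5

end sol

/-- **The ranks of the machine.** -/
theorem rvalue {R : Subring ℂ} (hR : ∀ c ∈ R, conj c ∈ R) {G : Type} [Group G] (hG : TF G)
    {ι κ : Type} [Fintype ι] [Fintype κ] (A : GMat κ ι G) (T : GMat Unit ι G) (hA : Coef R A)
    (hT : Coef R T) (h : kerA A ⊓ kerA T = ⊥) (h1 : vdim (kerA A) < 1) (S : Set ℕ)
    [DecidablePred (· ∈ S)] :
    ∃ w : ℝ, HasSum (fun n : ℕ => if n ∈ S then (1 - vdim (kerA A)) ^ 2 * vdim (kerA A) ^ n else 0)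
        w ∧ RVal R (Hg G) (4 + 8 * Fintype.card ι - 4 * vdim (kerA A) - w) := by
  set A2 := BC.push (inc G) A with hA2
  set T2 := BC.push (inc G) T with hT2
  have hv : vdim (kerA A2) = vdim (kerA A) := vdim_push (inc G) inc_inj A
  have hbot : kerA A2 ⊓ kerA T2 = ⊥ := by
    rw [hA2, hT2, ← kerA_stack, ← push_stack]
    apply eq_bot_of_vdim (isClosed_kerA _) (linv_kerA _)
    rw [vdim_push (inc G) inc_inj, kerA_stack, h, vdim_bot]
  have hsupp : ∀ (a : G →₀ ℂ), ∀ x ∈ (a.mapDomain (inc G)).support, x ∈ DIg G {0} := by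
    classical
    intro a x hx
    have := Finsupp.mapDomain_support hx
    rw [Finset.mem_image] at this
    obtain ⟨y, _, rfl⟩ := this
    exact inc_mem y
  have hloc : Loc (DIg G {0}) (lampP A2 T2) :=
    loc_lampP _ (fun k i x hx => hsupp _ x hx) (fun k i x hx => hsupp _ x hx)
  set M := mach G S (lampP A2 T2) (closed_lampP A2 T2) hloc with hM
  have hα : M.α = vdim (kerA A) := by
    rw [← hv]
    exact vdim_lampP A2 T2 hbot
  have hc1 := coef_push (inc G) A hA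
  have hc2 := coef_push (inc G) T hT
  have d1 : DfnN R M.P 0 (Fintype.card ι) := dfnN_lampP hc1 hc2 hbot
  have d2 : DfnN R M.Pᗮ (Fintype.card κ - Fintype.card ι + vdim (kerA A2)) (Fintype.card κ) :=
    dfnN_lampP_orth hR hc1 hc2
  have d3 := (dfnN_Sol M d1 d2).rval
  have h3 := M.vdim_Sol (by rw [hα]; exact h1) S
    (fun n hn => mach_good S _ (closed_lampP A2 T2) hloc n hn) (by
      intro n hn k hk hc
      refine mach_bad S _ (closed_lampP A2 T2) hloc n hn ?_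
      have h4 := tf_Hg hG _ k hk hc
      have h5 := inv_mul_eq_one.1 h4
      exact h5.symm)
  rw [hα] at h3
  rw [hv] at d3
  refine ⟨vdim M.Sol, h3, ?_⟩
  have e : (Fintype.card (Fin 4) : ℝ) + ((4 * Fintype.card κ + 4 * Fintype.card ι : ℕ) : ℝ)
      - (vdim M.Sol + 4 * (Fintype.card κ - Fintype.card ι + vdim (kerA A)))
      = 4 + 8 * Fintype.card ι - 4 * vdim (kerA A) - vdim M.Sol := by
    rw [Fintype.card_fin]
    push_cast
    ring
  rw [← e]
  exact d3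

/-- `s` is the rank of a matrix over `R[H]` for some `H` in the class -/
def RV (C : (G : Type) → [Group G] → Prop) (R : Subring ℂ) (s : ℝ) : Prop :=
  ∃ (H : Type) (_ : Group H), C H ∧ RVal R H s

/-- `s` is the rank of a single element -/
def EV (C : (G : Type) → [Group G] → Prop) (R : Subring ℂ) (s : ℝ) : Prop :=
  ∃ (H : Type) (_ : Group H), C H ∧ ∃ A : GMat Unit Unit H, Coef R A ∧ rk A = s

variable {C : (G : Type) → [Group G] → Prop} {R : Subring ℂ}

theorem RV.ev (hC : Cls C) (hR : ∀ c ∈ R, conj c ∈ R) {s : ℝ} (h : RV C R s) (h1 : s ≤ 1) :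
    EV C R s := by
  obtain ⟨H, _, hH, κ, ι, _, _, A, hA, rfl⟩ := h
  obtain ⟨m, m', B, hB, hB1⟩ := compress_one hR A hA h1
  exact ⟨_, inferInstance, hC.free _ m' (hC.free H m hH), B, hB, hB1⟩

theorem EV.rv {s : ℝ} (h : EV C R s) : RV C R s := by
  obtain ⟨H, _, hH, A, hA, h1⟩ := h
  exact ⟨H, inferInstance, hH, Unit, Unit, inferInstance, inferInstance, A, hA, h1⟩

theorem RV.mul (hC : Cls C) {s t : ℝ} (h : RV C R s) (h' : RV C R t) : RV C R (s * t) := by
  obtain ⟨H, _, hH, κ, ι, _, _, A, hA, rfl⟩ := h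
  obtain ⟨H', _, hH', κ', ι', _, _, A', hA', rfl⟩ := h'
  exact ⟨H × H', inferInstance, hC.prod H H' hH hH', κ × κ', ι × ι', inferInstance,
    inferInstance, kron A A', coef_kron hA hA', rk_kron A A'⟩

theorem RV.one {s : ℝ} (h : RV C R s) : RV C R 1 := by
  obtain ⟨H, _, hH, _⟩ := h
  refine ⟨H, inferInstance, hH, Unit, Unit, inferInstance, inferInstance, idM H, ?_, ?_⟩
  · intro k i g
    exact coef_single _ _ R.one_mem _
  · unfold rk
    have : kerA (idM H) = ⊥ := by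
      rw [eq_bot_iff]
      intro x hx
      rw [kerA_eq, mem_kr, op_idM] at hx
      exact hx
    rw [this, vdim_bot]
    simp

theorem RV.pow (hC : Cls C) {s : ℝ} (h : RV C R s) (n : ℕ) : RV C R (s ^ n) := by
  induction n with
  | zero => simpa using h.one
  | succ n ih =>
    rw [pow_succ]
    exact ih.mul hC h

/-- kernel dimensions of matrices with one unknown -/
def SV (C : (G : Type) → [Group G] → Prop) (R : Subring ℂ) (v : ℝ) : Prop :=
  ∃ (H : Type) (_ : Group H), C H ∧ ∃ (κ ι : Type) (_ : Fintype κ) (_ : Fintype ι)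
    (A : GMat κ ι H), Coef R A ∧ Fintype.card ι = 1 ∧ vdim (kerA A) = v

theorem SV.mul (hC : Cls C) {s t : ℝ} (h : SV C R s) (h' : SV C R t) : SV C R (s * t) := by
  obtain ⟨H, _, hH, κ, ι, _, _, A, hA, h1, rfl⟩ := h
  obtain ⟨H', _, hH', κ', ι', _, _, A', hA', h1', rfl⟩ := h'
  refine ⟨H × H', inferInstance, hC.prod H H' hH hH', _, _, inferInstance, inferInstance,
    BC.ext A A', coef_ext hA hA', ?_, vdim_ext A A'⟩
  rw [Fintype.card_prod, h1, h1']

theorem SV.pow (hC : Cls C) {s : ℝ} (h : SV C R s) (n : ℕ) : SV C R (s ^ (n + 1)) := by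
  induction n with
  | zero => simpa using h
  | succ n ih =>
    rw [pow_succ]
    exact ih.mul hC h

theorem SV.rv {v : ℝ} (h : SV C R v) : RV C R (1 - v) := by
  obtain ⟨H, _, hH, κ, ι, _, _, A, hA, h1, rfl⟩ := h
  refine ⟨H, inferInstance, hH, κ, ι, inferInstance, inferInstance, A, hA, ?_⟩
  unfold rk
  rw [h1, Nat.cast_one]

theorem EV.sv {s : ℝ} (h : EV C R s) : SV C R (1 - s) := by
  obtain ⟨H, _, hH, A, hA, rfl⟩ := h
  refine ⟨H, inferInstance, hH, Unit, Unit, inferInstance, inferInstance, A, hA, rfl, ?_⟩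
  unfold rk
  simp

/-- an interval of ranks -/
theorem RV.interval (hC : Cls C) (hR : ∀ c ∈ R, conj c ∈ R) (h : VV C R (1 / 2)) :
    ∃ c : ℝ, 1 ≤ c ∧ ∀ w : ℝ, 0 ≤ w → w ≤ 1 / 2 → RV C R (c - w) := by
  classical
  obtain ⟨G, _, hG, hv⟩ := h
  obtain ⟨m, ι, κ, _, _, A, T, hA, hT, hAT, hvA⟩ := lamp_exists hv (by norm_num)
  have hG' := hC.free G m hG
  have htf : TF (Monoid.Coprod G (FreeGroup (Fin m))) := hC.tf _ hG'
  refine ⟨4 + 8 * Fintype.card ι - 4 * (1 / 2), ?_, ?_⟩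
  · have : (0 : ℝ) ≤ Fintype.card ι := Nat.cast_nonneg _
    linarith
  · intro r hr0 hr1
    have h5 := greedy (α := 1 / 2) (t := r / (1 - 1 / 2) ^ 2) le_rfl (by norm_num)
      (by positivity) (by norm_num; linarith)
    set S : Set ℕ := {n | 1 ≤ rem (1 / 2) (r / (1 - 1 / 2) ^ 2) n} with hS
    obtain ⟨w, hw, hval⟩ := rvalue hR htf A T hA hT hAT (by rw [hvA]; norm_num) S
    have h6 : HasSum (fun n : ℕ => if n ∈ S then (1 - vdim (kerA A)) ^ 2 * vdim (kerA A) ^ n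
        else 0) r := by
      have h7 := h5.mul_left ((1 - 1 / 2 : ℝ) ^ 2)
      have e1 : (1 - 1 / 2 : ℝ) ^ 2 * (r / (1 - 1 / 2) ^ 2) = r := by
        field_simp
      rw [e1] at h7
      have e3 : (fun n : ℕ => if n ∈ S then (1 - 1 / 2 : ℝ) ^ 2 * (1 / 2) ^ n else 0)
          = fun n : ℕ => (1 - 1 / 2 : ℝ) ^ 2 *
            (if 1 ≤ rem (1 / 2) (r / (1 - 1 / 2) ^ 2) n then (1 / 2) ^ n else 0) := by
        funext n
        by_cases hn : 1 ≤ rem (1 / 2) (r / (1 - 1 / 2) ^ 2) n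
        · rw [if_pos hn, if_pos (show n ∈ S from hn)]
        · rw [if_neg hn, if_neg (show n ∉ S from hn), mul_zero]
      rw [hvA, e3]
      exact h7
    rw [hw.unique h6, hvA] at hval
    exact ⟨_, inferInstance, hC.hg hG', hval⟩

/-- **All or nothing**, for ranks: all ranks in `(0, 1]`. -/
theorem RV.all (hC : Cls C) (hR : ∀ c ∈ R, conj c ∈ R) {ρ : ℝ} (h : EV C R ρ) (h0 : 0 < ρ)
    (h1 : ρ < 1) (s : ℝ) (hs : 0 < s) (hs1 : s ≤ 1) : EV C R s := by
  -- kernel dimensions of single elements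
  have hsv : SV C R (1 - ρ) := h.sv
  have hvv : VV C R (1 - ρ) := by
    obtain ⟨H, _, hH, κ, ι, _, _, A, hA, _, h2⟩ := hsv
    exact ⟨H, inferInstance, hH, h2 ▸ val_of A hA⟩
  have hhalf : VV C R (1 / 2) := VV.all hC hR hvv (by linarith) (by linarith) _ (by norm_num)
  obtain ⟨c, hc, hint⟩ := RV.interval hC hR hhalf
  have hc0 : 0 < c := by linarith
  -- a rank close to one
  obtain ⟨n, hn⟩ := exists_pow_lt_of_lt_one (show (0 : ℝ) < 1 / (2 * c) by positivity)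
    (show 1 - ρ < 1 by linarith)
  set ρ' := 1 - (1 - ρ) ^ (n + 1) with hρ'
  have hp0 : 0 < (1 - ρ) ^ (n + 1) := pow_pos (by linarith) _
  have hp1 : (1 - ρ) ^ (n + 1) ≤ (1 - ρ) ^ n :=
    pow_le_pow_of_le_one (by linarith) (by linarith) (Nat.le_succ n)
  have hc2 : 1 / (2 * c) ≤ 1 / 2 := by
    apply one_div_le_one_div_of_le (by norm_num)
    linarith
  have hρ1 : ρ' < 1 := by linarith
  have hρ0 : 0 < ρ' := by linarith
  have hρc : c - 1 / 2 ≤ ρ' * c := by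
    have h3 : (1 - ρ) ^ (n + 1) * c ≤ 1 / (2 * c) * c :=
      mul_le_mul_of_nonneg_right (by linarith) hc0.le
    have h4 : 1 / (2 * c) * c = 1 / 2 := by field_simp
    rw [h4] at h3
    rw [hρ', sub_mul, one_mul]
    linarith
  have hrv : RV C R ρ' := (hsv.pow hC n).rv
  -- scaling
  obtain ⟨k, hk1, hk2⟩ := exists_nat_pow_near_of_lt_one (x := s / c) (y := ρ')
    (by positivity) (by rw [div_le_one hc0]; linarith) hρ0 hρ1
  have hpk : 0 < ρ' ^ k := pow_pos hρ0 k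
  have h5 : s / ρ' ^ k ≤ c := by
    rw [div_le_iff₀ hpk]
    rw [div_le_iff₀ hc0] at hk2
    linarith
  have h6 : c - 1 / 2 ≤ s / ρ' ^ k := by
    refine hρc.trans ?_
    rw [le_div_iff₀ hpk]
    rw [lt_div_iff₀ hc0, pow_succ] at hk1
    nlinarith
  have h7 := hint (c - s / ρ' ^ k) (by linarith) (by linarith)
  rw [sub_sub_cancel] at h7
  have h8 := (hrv.pow hC k).mul hC h7
  have e : ρ' ^ k * (s / ρ' ^ k) = s := by field_simp
  rw [e] at h8
  exact h8.ev hC hR hs1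

end Pool.Agent.TH57.AZ
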