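import Pool.Agent.TH57.AZ.Wedge
import Pool.Agent.TH57.AZ.Size

/-!
Conversion between the convolution kernel of an element and the kernel of a one by one matrix;
realization of all numbers by single elements.
-/

set_option autoImplicit false
set_option linter.unusedSectionVars false

open scoped InnerProductSpace ENNReal ComplexConjugate
open Filter Topology

namespace Pool.Agent.TH57.AZ

open Pool.Agent.W656.VA Pool.Agent.TH25.AD
open Pool.Agent.H80R2
open Pool.Agent.H80R2.BC (L2 GMat vdim IsTr LInv Equi act kerA Coef Generic)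
open Pool.Agent.H812R3

variable {H : Type} [Group H]

/-- the one by one matrix -/
def one1 (a : H →₀ ℂ) : GMat Unit Unit H := fun _ _ => a

/-- the equivalence behind the change of convention -/
def jE (H : Type) [Group H] : H ≃ Unit × H where
  toFun g := ((), g⁻¹)
  invFun p := p.2⁻¹
  left_inv g := inv_inv g
  right_inv p := by
    obtain ⟨⟨⟩, g⟩ := p
    simp

/-- the change of convention -/
noncomputable def jm (x : L2 (Unit × H)) : lp (fun _ : H => ℂ) 2 :=
  ⟨fun g => x ((), g⁻¹), mem_of_summable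
    ((summable_sq x).comp_injective (jE H).injective)⟩

theorem jm_apply (x : L2 (Unit × H)) (g : H) : jm x g = x ((), g⁻¹) := rfl

theorem norm_jm (x : L2 (Unit × H)) : ‖jm x‖ = ‖x‖ := by
  have h1 := norm_sq_eq (jm x)
  have h2 := (jE H).hasSum_iff.2 (norm_sq_eq x)
  have h3 := h1.unique h2
  exact (pow_left_inj₀ (norm_nonneg _) (norm_nonneg _) (by norm_num)).1 h3

theorem isometry_jm : Isometry (jm : L2 (Unit × H) → lp (fun _ : H => ℂ) 2) := by
  apply Isometry.of_dist_eq
  intro x y
  rw [dist_eq_norm, dist_eq_norm, ← norm_jm (x - y)]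
  congr 1

theorem jm_surj (f : lp (fun _ : H => ℂ) 2) : ∃ x : L2 (Unit × H), jm x = f := by
  refine ⟨⟨fun p => f p.2⁻¹, mem_of_summable
    ((summable_sq f).comp_injective (jE H).symm.injective)⟩, ?_⟩
  ext g
  rw [jm_apply]
  exact congrArg f (inv_inv g)

theorem act_one1 (a : H →₀ ℂ) (x : L2 (Unit × H)) (g : H) :
    act (one1 a) x () g = a.sum (fun k c => c * jm x (k⁻¹ * g⁻¹)) := by
  unfold act one1
  rw [Fintype.sum_unique]
  refine Finsupp.sum_congr fun h _ => ?_
  rw [jm_apply]
  congr 2
  rw [mul_inv_rev, inv_inv, inv_inv]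

theorem jm_image (a : H →₀ ℂ) :
    jm '' (kerA (one1 a) : Set (L2 (Unit × H))) = kern a := by
  ext f
  constructor
  · rintro ⟨x, hx, rfl⟩
    rw [mem_kern_iff]
    intro g
    have h := hx () g⁻¹
    rw [act_one1, inv_inv] at h
    exact h
  · intro hf
    obtain ⟨x, rfl⟩ := jm_surj f
    refine ⟨x, ?_, rfl⟩
    rintro ⟨⟩ g
    rw [act_one1]
    exact (mem_kern_iff a _).1 hf g⁻¹

theorem kd_eq_vdim (a : H →₀ ℂ) : kd a = vdim (kerA (one1 a)) := by
  classical
  unfold kd vdim
  rw [Fintype.sum_unique, ← jm_image]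
  have h1 : (lp.single 2 (1 : H) (1 : ℂ) : lp (fun _ : H => ℂ) 2)
      = jm (BC.dl H (default : Unit)) := by
    rw [dl_eq]
    ext g
    rw [jm_apply, lp.single_apply]
    by_cases h : g = 1
    · subst h
      rw [Pi.single_eq_same, inv_one, de_apply_self]
    · have h2 : (((), g⁻¹) : Unit × H) ≠ (default, 1) := by
        intro h3
        exact h (inv_eq_one.1 (Prod.ext_iff.1 h3).2)
      rw [Pi.single_eq_of_ne h, de_apply_ne h2]
  rw [h1, Metric.infDist_image isometry_jm]

theorem rk_one1 (a : H →₀ ℂ) : rk (one1 a) = 1 - kd a := by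
  rw [kd_eq_vdim]
  unfold rk
  simp

variable {ι κ : Type} [Fintype ι] [Fintype κ]

theorem eq_zero_of_rk (A : GMat κ ι H) (h : rk A ≤ 0) : A = 0 := by
  rw [rk_eq_clo] at h
  have h1 := eq_bot_of_vdim (closed_clo (op A)) (linv_clo (equi_op A)) h
  funext k i
  ext g
  have h2 : op A (de (i, (1 : H))) = 0 := by
    have := mem_clo (op A) (de (i, (1 : H)))
    rw [h1, Submodule.mem_bot] at this
    exact this
  have h3 : op A (de (i, (1 : H))) (k, g⁻¹) = A k i g := by
    rw [op_apply]
    unfold act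
    rw [Finset.sum_eq_single i]
    · rw [Finsupp.sum, Finset.sum_eq_single g]
      · rw [inv_mul_cancel, de_apply_self, mul_one]
      · intro b _ hb
        rw [de_apply_ne, mul_zero]
        intro h4
        have := (Prod.ext_iff.1 h4).2
        simp only at this
        exact hb (inv_mul_eq_one.1 this).symm
      · intro h4
        rw [Finsupp.notMem_support_iff.1 h4, zero_mul]
    · intro j _ hj
      refine Finset.sum_eq_zero fun b _ => ?_
      simp only
      rw [de_apply_ne, mul_zero]
      intro h4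
      exact hj (Prod.ext_iff.1 h4).1
    · intro h4
      exact absurd (Finset.mem_univ _) h4
  rw [← h3, h2]
  rfl

theorem kd_lt_one {a : H →₀ ℂ} (h : a ≠ 0) : kd a < 1 := by
  by_contra hc
  push Not at hc
  apply h
  have h1 := eq_zero_of_rk (one1 a) (by rw [rk_one1]; linarith)
  exact congrFun (congrFun h1 ()) ()

/-- restriction of an element to a finitely generated subgroup -/
theorem fg_elem (a : H →₀ ℂ) : ∃ (K : Subgroup H) (b : K →₀ ℂ), Group.FG K ∧
    (∀ g, b g = a g) ∧ kd b = kd a := by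
  classical
  set K := Subgroup.closure (a.support : Set H) with hK
  have hsub : ∀ x, x ∈ a.support → x ∈ K := fun x hx => Subgroup.subset_closure hx
  set b : K →₀ ℂ := a.comapDomain (Subtype.val : K → H) Subtype.val_injective.injOn with hb
  refine ⟨K, b, Group.closure_finset_fg a.support, fun g => rfl, ?_⟩
  have h1 : BC.push (K.subtype : K → H) (one1 b) = one1 a := by
    funext k i
    show Finsupp.mapDomain (Subtype.val : K → H) b = a
    apply Finsupp.mapDomain_comapDomain _ Subtype.val_injective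
    intro x hx
    exact ⟨⟨x, hsub x hx⟩, rfl⟩
  rw [kd_eq_vdim, kd_eq_vdim, ← vdim_push K.subtype K.subtype_injective (one1 b), h1]

theorem kd_map {K : Type} [Group K] (f : K →* H) (hf : Function.Injective f) (b : K →₀ ℂ) :
    kd (b.mapDomain f) = kd b := by
  rw [kd_eq_vdim, kd_eq_vdim, ← vdim_push f hf (one1 b)]
  rfl

/-- the alternating element of the support -/
theorem exists_signed (α : H →₀ ℂ) (h0 : α ≠ 0) :
    ∃ β : (Fin α.support.card → H) →₀ ℂ, β ≠ 0 ∧
      (∀ x, β x = 0 ∨ β x = 1 ∨ β x = -1) ∧ kd α ^ α.support.card ≤ kd β := by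
  set e := α.support.equivFin.symm with he
  set g : Fin α.support.card → H := fun i => (e i : H) with hg
  have hinj : Function.Injective g := fun i j h => e.injective (Subtype.ext h)
  refine ⟨wd g, wd_ne_zero hinj, wd_values hinj, kd_wedge α g hinj ?_ h0⟩
  intro x
  constructor
  · intro hx
    exact ⟨e.symm ⟨x, hx⟩, by rw [hg]; simp⟩
  · rintro ⟨i, rfl⟩
    exact (e i).2

variable {C : (G : Type) → [Group G] → Prop}

theorem Cls.pow (hC : Cls C) (G : Type) [Group G] (n : ℕ) (h : C G) : C (Fin n → G) :=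
  hC.pi (Fin n) (fun _ => G) (fun _ => h)

/-- **All or nothing**: if one element over a group in the class has a kernel of positive
dimension, then all numbers of `(0, 1)` are kernel dimensions of elements with integer
coefficients. -/
theorem all_kd (hC : Cls C) {G : Type} [Group G] (hG : C G) {α : G →₀ ℂ} (h0 : α ≠ 0)
    (h1 : 0 < kd α) (r : ℝ) (hr0 : 0 < r) (hr1 : r < 1) :
    ∃ (H : Type) (_ : Group H), C H ∧ ∃ a : H →₀ ℂ,
      (∀ g, a g ∈ (⊥ : Subring ℂ)) ∧ kd a = r := by
  obtain ⟨β, hβ0, hβ1, hβ2⟩ := exists_signed α h0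
  have h2 : 0 < kd β := lt_of_lt_of_le (pow_pos h1 _) hβ2
  have h3 : kd β < 1 := kd_lt_one hβ0
  have hβc : Coef (⊥ : Subring ℂ) (one1 β) := by
    intro _ _ x
    rcases hβ1 x with h | h | h <;> (unfold one1; rw [h])
    · exact Subring.zero_mem _
    · exact Subring.one_mem _
    · exact Subring.neg_mem _ (Subring.one_mem _)
  have hconj : ∀ c ∈ (⊥ : Subring ℂ), (starRingEnd ℂ) c ∈ (⊥ : Subring ℂ) := by
    intro c hc
    obtain ⟨k, rfl⟩ := Subring.mem_bot.1 hc
    rw [map_intCast]
    exact Subring.mem_bot.2 ⟨k, rfl⟩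
  have hev : EV C (⊥ : Subring ℂ) (1 - kd β) :=
    ⟨_, inferInstance, Cls.pow hC G _ hG, one1 β, hβc, rk_one1 β⟩
  obtain ⟨H, _, hH, A, hA, hA1⟩ := RV.all hC hconj hev (by linarith) (by linarith) (1 - r)
    (by linarith) (by linarith)
  refine ⟨H, inferInstance, hH, A () (), fun g => hA () () g, ?_⟩
  have h4 : A = one1 (A () ()) := rfl
  rw [h4, rk_one1] at hA1
  linarith

/-- elements and matrices of small rank -/
theorem elem_of_matrix (hC : Cls C) {G : Type} [Group G] (hG : C G) (A : GMat κ ι G)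
    (h0 : A ≠ 0) (h1 : rk A < 1) : ∃ (H : Type) (_ : Group H), C H ∧ ∃ a : H →₀ ℂ,
      a ≠ 0 ∧ 0 < kd a := by
  have h2 : 0 < rk A := by
    by_contra hc
    push Not at hc
    exact h0 (eq_zero_of_rk A hc)
  obtain ⟨m, m', B, _, hB⟩ := compress_one (R := ⊤) (fun _ _ => Subring.mem_top _) A
    (fun _ _ _ => Subring.mem_top _) h1.le
  refine ⟨_, inferInstance, hC.free _ m' (hC.free G m hG), B () (), ?_, ?_⟩
  · intro h
    have h4 : B = one1 (B () ()) := rfl
    have h5 : kerA (one1 (0 : (Monoid.Coprod (Monoid.Coprod G (FreeGroup (Fin m)))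
      (FreeGroup (Fin m'))) →₀ ℂ)) = ⊤ := by
      rw [eq_top_iff]
      intro x _ k g
      unfold act one1
      simp
    rw [h4, h] at hB
    unfold rk at hB
    rw [h5, vdim_top] at hB
    unfold rk at h2
    linarith
  · have h4 : B = one1 (B () ()) := rfl
    rw [h4, rk_one1] at hB
    linarith

end Pool.Agent.TH57.AZ
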