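import Pool.Agent.TH25.AD.A8

/-!
Induction of closed invariant subspaces; a generic row is injective on subspaces of dimension at
most one; compression of matrices of rank at most one to single elements.
-/

set_option autoImplicit false
set_option linter.unusedSectionVars false

open scoped InnerProductSpace ENNReal ComplexConjugate
open Filter Topology

namespace Pool.Agent.TH57.AZ

open Pool.Agent.W656.VA Pool.Agent.TH25.AD
open Pool.Agent.H80R2
open Pool.Agent.H80R2.BC (L2 GMat vdim IsTr LInv Equi act kerA Coef Generic)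
open Pool.Agent.H812R3

variable {ι κ G G' : Type} [Group G] [Group G'] [Fintype ι] [Fintype κ]

/-- the induced subspace -/
noncomputable def ind (f : G →* G') (hf : Function.Injective f) (V : Submodule ℂ (L2 (κ × G))) :
    Submodule ℂ (L2 (κ × G')) :=
  ⨅ g : G', V.comap (slice κ f hf g : L2 (κ × G') →ₗ[ℂ] L2 (κ × G))

theorem mem_ind (f : G →* G') (hf : Function.Injective f) (V : Submodule ℂ (L2 (κ × G)))
    (x : L2 (κ × G')) : x ∈ ind f hf V ↔ ∀ g, slice κ f hf g x ∈ V := by
  unfold ind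
  rw [Submodule.mem_iInf]
  rfl

theorem closed_ind (f : G →* G') (hf : Function.Injective f) {V : Submodule ℂ (L2 (κ × G))}
    (hV : IsClosed (V : Set (L2 (κ × G)))) : IsClosed (ind f hf V : Set (L2 (κ × G'))) := by
  have : (ind f hf V : Set (L2 (κ × G'))) = ⋂ g : G', {x | slice κ f hf g x ∈ V} := by
    ext x
    rw [SetLike.mem_coe, mem_ind, Set.mem_iInter]
    rfl
  rw [this]
  exact isClosed_iInter fun g => hV.preimage (slice κ f hf g).continuous

theorem linv_ind (f : G →* G') (hf : Function.Injective f) (V : Submodule ℂ (L2 (κ × G))) :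
    LInv (ind f hf V) := by
  apply linv_of
  intro g x hx
  rw [mem_ind] at hx ⊢
  intro g1
  have : slice κ f hf g1 (Pool.Agent.W656.VA.lt κ g x) = slice κ f hf (g * g1) x := by
    ext ⟨j, h⟩
    rw [slice_apply, lt_apply, slice_apply, mul_assoc]
  rw [this]
  exact hx _

/-- induction does not change the dimension -/
theorem vdim_ind (f : G →* G') (hf : Function.Injective f) {V : Submodule ℂ (L2 (κ × G))}
    (hV : IsClosed (V : Set (L2 (κ × G)))) (hVi : LInv V) :
    vdim (ind f hf V) = vdim V := by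
  obtain ⟨u, hu, hu2, hu3⟩ := exists_vec hV
  have hinj : Function.Injective (fun p : κ × G => (p.1, f p.2)) := by
    rintro ⟨a, b⟩ ⟨c, d⟩ h
    simp only [Prod.mk.injEq] at h
    exact Prod.ext h.1 (hf h.2)
  set w : κ → L2 (κ × G') := fun i => KP.push (fun p : κ × G => (p.1, f p.2)) hinj (u i) with hw
  have hw1 : ∀ i j h, w i (j, f h) = u i (j, h) := fun i j h =>
    pushL_apply (fun p : κ × G => (p.1, f p.2)) hinj (u i) (j, h)
  have hw0 : ∀ i j g, g ∉ f.range → w i (j, g) = 0 := by
    intro i j g hg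
    apply pushL_apply_ne
    rintro ⟨a, b⟩ h
    simp only [Prod.mk.injEq] at h
    exact hg ⟨b, h.2⟩
  rw [vdim_of_vec (closed_ind f hf hV) w, hu3]
  · refine Finset.sum_congr rfl fun i _ => ?_
    rw [← map_one f, hw1]
  · intro i
    rw [mem_ind]
    intro g
    by_cases hg : g ∈ f.range
    · obtain ⟨a, rfl⟩ := hg
      have : slice κ f hf (f a) (w i) = Pool.Agent.W656.VA.lt κ a (u i) := by
        ext ⟨j, h⟩
        rw [slice_apply, ← map_mul, hw1, lt_apply]
      rw [this]
      exact linv_lt hVi _ (hu i)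
    · have : slice κ f hf g (w i) = 0 := by
        ext ⟨j, h⟩
        rw [slice_apply, hw0]
        · rfl
        · rintro ⟨b, hb⟩
          apply hg
          refine ⟨b * h⁻¹, ?_⟩
          rw [map_mul, hb, map_inv]
          group
      rw [this]
      exact Submodule.zero_mem _
  · intro i x hx
    have h1 : ⟪w i, x⟫_ℂ = ⟪u i, slice κ f hf 1 x⟫_ℂ := by
      rw [hw]
      show ⟪KP.push _ _ (u i), x⟫_ℂ = _
      rw [KP.push, ContinuousLinearMap.adjoint_inner_left]
      congr 1
      ext ⟨j, h⟩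
      rw [slice_apply, one_mul]
      rfl
    rw [h1, hu2 i _ ((mem_ind f hf V x).1 hx 1), slice_apply, one_mul, map_one]

/-- the row with entries `u p` -/
noncomputable def thr (u : κ → G') : GMat Unit κ G' := fun _ p => Finsupp.single (u p) 1

theorem op_thr (u : κ → G') (x : L2 (κ × G')) (r : G') :
    op (thr u) x ((), r) = ∑ p, x (p, r * u p) := by
  rw [op_apply]
  unfold act thr
  refine Finset.sum_congr rfl fun p _ => ?_
  rw [Finsupp.sum_single_index (by simp), one_mul]

theorem coef_thr {R : Subring ℂ} (u : κ → G') : Coef R (thr u) := by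
  intro _ p h
  exact coef_single _ _ R.one_mem _

/-- the key computation -/
theorem thr_rs (u : κ → G') (p0 : κ) (h0 : G') (χ : G' → Bool)
    (hχ : ∀ p h, (χ (h * (u p)⁻¹) ≠ χ h ↔ (p = p0 ∧ h = h0)))
    (x : L2 (κ × G')) (hx : ∀ r, ∑ p, x (p, r * u p) = 0) :
    ∃ ε : ℂ, ε * ε = 1 ∧ op (thr u) (rs (fun y => χ y.2) x) =
      (ε * x (p0, h0)) • de ((), h0 * (u p0)⁻¹) := by
  classical
  set r0 := h0 * (u p0)⁻¹ with hr0
  have hr0' : r0 * u p0 = h0 := by rw [hr0]; group
  have hflip : ∀ p r, (χ r ≠ χ (r * u p) ↔ (p = p0 ∧ r = r0)) := by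
    intro p r
    have h1 := hχ p (r * u p)
    rw [mul_inv_cancel_right] at h1
    rw [h1]
    constructor
    · rintro ⟨rfl, h3⟩
      exact ⟨rfl, by rw [hr0, ← h3]; group⟩
    · rintro ⟨rfl, rfl⟩
      exact ⟨rfl, hr0'⟩
  refine ⟨if χ r0 then -1 else 1, by split_ifs <;> norm_num, ?_⟩
  ext ⟨⟨⟩, r⟩
  rw [op_thr, lp.coeFn_smul, Pi.smul_apply, smul_eq_mul]
  simp only [rs_apply]
  by_cases hqr : r = r0
  · subst hqr
    rw [de_apply_self, mul_one]
    have hp0 : χ (r0 * u p0) = !χ r0 :=
      Bool.eq_not.2 (Ne.symm ((hflip p0 r0).2 ⟨rfl, rfl⟩))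
    have hp : ∀ p, p ≠ p0 → χ (r0 * u p) = χ r0 := by
      intro p hp
      by_contra hc
      exact hp ((hflip p r0).1 (fun h => hc h.symm)).1
    have h1 := hx r0
    rw [← Finset.add_sum_erase _ _ (Finset.mem_univ p0)] at h1 ⊢
    have h2 : ∑ p ∈ Finset.univ.erase p0, (if χ (r0 * u p) = true then
        x (p, r0 * u p) else 0)
        = if χ r0 = true then ∑ p ∈ Finset.univ.erase p0, x (p, r0 * u p) else 0 := by
      by_cases h3 : χ r0 = true
      · rw [if_pos h3]
        refine Finset.sum_congr rfl fun p hp' => ?_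
        rw [hp p (Finset.ne_of_mem_erase hp'), if_pos h3]
      · rw [if_neg h3]
        refine Finset.sum_eq_zero fun p hp' => ?_
        rw [hp p (Finset.ne_of_mem_erase hp'), if_neg h3]
    rw [h2, hp0, hr0']
    rw [hr0'] at h1
    by_cases h3 : χ r0 = true
    · simp only [h3, Bool.not_true, if_true]
      rw [if_neg (by simp)]
      linear_combination h1
    · have h4 : χ r0 = false := by simpa using h3
      simp [h4]
  · rw [de_apply_ne (by simpa using hqr), mul_zero]
    have hp : ∀ p, χ (r * u p) = χ r := by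
      intro p
      by_contra hc
      exact hqr ((hflip p r).1 (fun h => hc h.symm)).2
    simp only [hp]
    by_cases h3 : χ r = true
    · simp only [h3, if_true]
      exact hx r
    · simp [h3]

theorem rs_ind (f : G →* G') (hf : Function.Injective f) (V : Submodule ℂ (L2 (κ × G)))
    (χ : G' → Bool) (hχ : ∀ r g, χ (r * f g) = χ r) (x : L2 (κ × G'))
    (hx : x ∈ ind f hf V) : rs (fun y => χ y.2) x ∈ ind f hf V := by
  rw [mem_ind] at hx ⊢
  intro g
  by_cases h : χ g = true
  · have : slice κ f hf g (rs (fun y => χ y.2) x) = slice κ f hf g x := by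
      ext ⟨p, a⟩
      rw [slice_apply, slice_apply, rs_apply]
      simp only
      rw [hχ, if_pos h]
    rw [this]
    exact hx g
  · have : slice κ f hf g (rs (fun y => χ y.2) x) = 0 := by
      ext ⟨p, a⟩
      rw [slice_apply, rs_apply]
      simp only
      rw [hχ, if_neg h]
      rfl
    rw [this]
    exact Submodule.zero_mem _

/-- **A generic row is injective on induced subspaces of dimension at most one.** -/
theorem thr_inj (f : G →* G') (hf : Function.Injective f) (u : κ → G')
    (hu : ∀ (p0 : κ) (h0 : G'), ∃ χ : G' → Bool, (∀ r g, χ (r * f g) = χ r) ∧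
      ∀ p h, (χ (h * (u p)⁻¹) ≠ χ h ↔ (p = p0 ∧ h = h0)))
    {V : Submodule ℂ (L2 (κ × G))} (hV : IsClosed (V : Set (L2 (κ × G)))) (hVi : LInv V)
    (h1 : vdim V ≤ 1) (x : L2 (κ × G')) (hx : x ∈ ind f hf V)
    (h : op (thr u) x = 0) : x = 0 := by
  by_contra hne
  have hx0 : ∀ r, ∑ p, x (p, r * u p) = 0 := by
    intro r
    rw [← op_thr, h]
    rfl
  obtain ⟨⟨p0, h0⟩, hp⟩ : ∃ q, x q ≠ 0 := by
    by_contra hc
    push Not at hc
    exact hne (lp.ext (funext hc))
  obtain ⟨χ, hχ1, hχ2⟩ := hu p0 h0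
  obtain ⟨ε, hε, h2⟩ := thr_rs u p0 h0 χ hχ2 x hx0
  set K := ind f hf V with hK
  have hKc : IsClosed (K : Set (L2 (κ × G'))) := closed_ind f hf hV
  have hKi : LInv K := linv_ind f hf V
  have h3 := vdim_rank hKc hKi (op (thr u)) (equi_op _)
  set M := K.map (op (thr u) : L2 (κ × G') →ₗ[ℂ] L2 (Unit × G')) with hM
  have hMi : LInv M := linv_map (equi_op _) hKi
  have h4 : ∀ r : G', de ((), r) ∈ M := by
    intro r
    have h5 : op (thr u) (rs (fun y => χ y.2) x) ∈ M :=
      ⟨_, rs_ind f hf V χ hχ1 x hx, rfl⟩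
    rw [h2] at h5
    have h6 := M.smul_mem (ε * x (p0, h0))⁻¹ h5
    have hne' : ε * x (p0, h0) ≠ 0 := by
      apply mul_ne_zero _ hp
      intro h0
      rw [h0] at hε
      simp at hε
    rw [smul_smul, inv_mul_cancel₀ hne', one_smul] at h6
    have h7 := linv_lt hMi ((h0 * (u p0)⁻¹) * r⁻¹) h6
    rw [lt_de] at h7
    have h8 : ((h0 * (u p0)⁻¹) * r⁻¹)⁻¹ * (h0 * (u p0)⁻¹) = r := by group
    rwa [h8] at h7
  have htop : M.topologicalClosure = ⊤ := by
    apply top_of_de
    rintro ⟨⟨⟩, r⟩
    exact h4 r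
  rw [htop, vdim_top, vdim_ind f hf hV hVi] at h3
  simp only [Fintype.card_unit, Nat.cast_one] at h3
  have h5 : K ⊓ kr (op (thr u)) = ⊥ := by
    apply eq_bot_of_vdim (isClosed_inf hKc (isClosed_kr _)) (linv_inf hKi (linv_kr (equi_op _)))
    linarith
  have h6 : x ∈ K ⊓ kr (op (thr u)) := ⟨hx, (mem_kr _ _).2 h⟩
  rw [h5, Submodule.mem_bot] at h6
  exact hne h6

/-- the rank of a matrix -/
noncomputable def rk (A : GMat κ ι G) : ℝ := Fintype.card ι - vdim (kerA A)

theorem rk_eq_clo (A : GMat κ ι G) : rk A = vdim (clo (op A)) := by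
  have h := rank_op (op A) (equi_op A)
  unfold rk
  rw [kerA_eq]
  linarith

theorem rk_nonneg (A : GMat κ ι G) : 0 ≤ rk A := by
  rw [rk_eq_clo]
  exact vdim_nonneg _

theorem rk_st (A : GMat κ ι G) : rk (st A) = rk A := by
  have h := vdim_ker_adjoint (op A) (equi_op A)
  unfold rk
  rw [kerA_eq, kerA_eq, op_st]
  linarith

theorem slice_op (f : G →* G') (hf : Function.Injective f) (A : GMat κ ι G)
    (x : L2 (ι × G')) (g : G') :
    slice κ f hf g (op (BC.push f A) x) = op A (slice ι f hf g x) := by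
  ext ⟨k, a⟩
  rw [slice_apply, op_apply, op_apply, act_push]
  unfold act
  refine Finset.sum_congr rfl fun i _ => ?_
  refine Finsupp.sum_congr fun b _ => ?_
  rw [slice_apply, map_mul, mul_assoc]

/-- **Compression** of a matrix of rank at most one to a row. -/
theorem compress {R : Subring ℂ} (A : GMat κ ι G) (hA : Coef R A) (h1 : rk A ≤ 1) :
    ∃ (m : ℕ) (B : GMat Unit ι (Monoid.Coprod G (FreeGroup (Fin m)))),
      Coef R B ∧ rk B = rk A := by
  classical
  set m := Fintype.card κ with hm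
  set e : κ × Fin 1 ≃ Fin m := (Equiv.prodUnique κ (Fin 1)).trans (Fintype.equivFin κ) with he
  have hgen := BC.generic_coprod G m e
  set inc : G →* Monoid.Coprod G (FreeGroup (Fin m)) := Monoid.Coprod.inl with hinc
  set u : κ → Monoid.Coprod G (FreeGroup (Fin m)) := fun p =>
    (Monoid.Coprod.inr : FreeGroup (Fin m) →* Monoid.Coprod G (FreeGroup (Fin m)))
      (FreeGroup.of (e (p, 0))) with hu
  have hinj : Function.Injective inc := Monoid.Coprod.inl_injective
  refine ⟨m, mulM (thr u) (BC.push inc A), coef_mulM (coef_thr u) (coef_push _ _ hA), ?_⟩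
  have hker : kerA (mulM (thr u) (BC.push inc A)) = kerA (BC.push inc A) := by
    ext x
    rw [kerA_eq, kerA_eq, mem_kr, mem_kr, op_mulM]
    constructor
    · intro h
      refine thr_inj inc hinj u ?_ (closed_clo (op A)) (linv_clo (equi_op A)) ?_ _ ?_ h
      · intro p0 h0
        obtain ⟨χ, h2, h3⟩ := hgen p0 0 h0
        refine ⟨χ, h2, fun p h => ?_⟩
        have h4 := h3 p 0 h
        rw [h4]
        simp
      · rw [← rk_eq_clo]
        exact h1
      · rw [mem_ind]
        intro g
        rw [slice_op]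
        exact mem_clo _ _
    · intro h
      rw [h, map_zero]
  unfold rk
  rw [hker, vdim_push inc hinj]

/-- **Compression** of a matrix of rank at most one to a single element. -/
theorem compress_one {R : Subring ℂ} (hR : ∀ c ∈ R, conj c ∈ R) (A : GMat κ ι G) (hA : Coef R A)
    (h1 : rk A ≤ 1) :
    ∃ (m m' : ℕ) (B : GMat Unit Unit (Monoid.Coprod (Monoid.Coprod G (FreeGroup (Fin m)))
      (FreeGroup (Fin m')))), Coef R B ∧ rk B = rk A := by
  obtain ⟨m, B, hB, hB1⟩ := compress A hA h1
  obtain ⟨m', B', hB', hB1'⟩ := compress (st B) (coef_st hR hB) (by rw [rk_st, hB1]; exact h1)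
  exact ⟨m, m', B', hB', by rw [hB1', rk_st, hB1]⟩

end Pool.Agent.TH57.AZ
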