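import Pool.Agent.TH57.AZ.Tens
import Pool.Agent.TH57.AZ.Ind

/-!
The rank is multiplicative for Kronecker products over products of groups.
-/

set_option autoImplicit false
set_option linter.unusedSectionVars false

open scoped InnerProductSpace ENNReal ComplexConjugate
open Filter Topology

namespace Pool.Agent.TH57.AZ

open Pool.Agent.W656.VA Pool.Agent.TH25.AD
open Pool.Agent.H80R2
open Pool.Agent.H80R2.BC (L2 GMat vdim IsTr LInv Equi act kerA Coef Generic)
open Pool.Agent.H812R3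

variable {ι κ ι' κ' G G' : Type} [Group G] [Group G'] [Fintype ι] [Fintype κ] [Fintype ι']
  [Fintype κ']

/-- the Kronecker product -/
noncomputable def kron (A : GMat κ ι G) (A' : GMat κ' ι' G') :
    GMat (κ × κ') (ι × ι') (G × G') :=
  fun k i => (A k.1 i.1).sum fun h c => c • (A' k.2 i.2).mapDomain (fun h' => (h, h'))

theorem lsum (X : Type) (ψ : X → ℂ) (z : X →₀ ℂ) : z.sum (fun h c => c * ψ h)
    = Finsupp.linearCombination ℂ ψ z := by
  rw [Finsupp.linearCombination_apply]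
  rfl

theorem kron_sum (A : GMat κ ι G) (A' : GMat κ' ι' G') (k : κ × κ') (i : ι × ι')
    (φ : G × G' → ℂ) : (kron A A' k i).sum (fun h c => c * φ h)
      = (A k.1 i.1).sum fun h c => c * (A' k.2 i.2).sum fun h' c' => c' * φ (h, h') := by
  rw [lsum, kron, map_finsuppSum]
  refine Finsupp.sum_congr fun h _ => ?_
  rw [map_smul, Finsupp.linearCombination_mapDomain, lsum, smul_eq_mul]
  rfl

theorem op_kron (A : GMat κ ι G) (A' : GMat κ' ι' G') (x : L2 ((ι × ι') × (G × G')))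
    (k : κ) (k' : κ') (g : G) (g' : G') : op (kron A A') x ((k, k'), (g, g')) =
      ∑ i, ∑ i', (A k i).sum fun h c => c * (A' k' i').sum fun h' c' =>
        c' * x ((i, i'), (g * h, g' * h')) := by
  rw [op_apply]
  unfold act
  rw [Fintype.sum_prod_type]
  refine Finset.sum_congr rfl fun i _ => Finset.sum_congr rfl fun i' _ => ?_
  rw [kron_sum A A' (k, k') (i, i') (fun h => x ((i, i'), (g, g') * h))]
  rfl

theorem coef_kron {R : Subring ℂ} {A : GMat κ ι G} {A' : GMat κ' ι' G'} (hA : Coef R A)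
    (hA' : Coef R A') : Coef R (kron A A') := by
  intro k i h
  unfold kron
  rw [Finsupp.sum_apply, Finsupp.sum]
  apply Subring.sum_mem
  intro l _
  rw [Finsupp.smul_apply, smul_eq_mul]
  exact R.mul_mem (hA _ _ _) (coef_mapDomain _ _ (hA' _ _) _)

theorem sl1_kron (A : GMat κ ι G) (A' : GMat κ' ι' G') (x : L2 ((ι × ι') × (G × G')))
    (k' : κ') (g' : G') : sl1 κ G k' g' (op (kron A A') x) =
      ∑ i', (A' k' i').sum fun h' c' => c' • op A (sl1 ι G i' (g' * h') x) := by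
  ext ⟨k, g⟩
  have e1 : sl1 κ G k' g' (op (kron A A') x) (k, g) = op (kron A A') x ((k, k'), (g, g')) := rfl
  rw [e1, op_kron, lp.coeFn_sum, Finset.sum_apply, Finset.sum_comm]
  refine Finset.sum_congr rfl fun i' _ => ?_
  simp only [Finsupp.sum]
  rw [lp.coeFn_sum, Finset.sum_apply]
  have e2 : ∀ h' : G', (A' k' i' h' • op A (sl1 ι G i' (g' * h') x) : L2 (κ × G)) (k, g)
      = ∑ i, ∑ h ∈ (A k i).support, A' k' i' h' * (A k i h * x ((i, i'), (g * h, g' * h'))) := by
    intro h'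
    rw [lp.coeFn_smul, Pi.smul_apply, smul_eq_mul, op_apply]
    unfold act
    rw [Finset.mul_sum]
    refine Finset.sum_congr rfl fun i _ => ?_
    rw [Finsupp.sum, Finset.mul_sum]
    rfl
  simp only [e2]
  rw [Finset.sum_comm]
  refine Finset.sum_congr rfl fun i _ => ?_
  rw [Finset.sum_comm]
  refine Finset.sum_congr rfl fun h _ => ?_
  rw [Finset.mul_sum]
  refine Finset.sum_congr rfl fun h' _ => ?_
  ring

theorem sl2_kron (A : GMat κ ι G) (A' : GMat κ' ι' G') (x : L2 ((ι × ι') × (G × G')))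
    (k : κ) (g : G) : sl2 κ' G' k g (op (kron A A') x) =
      ∑ i, (A k i).sum fun h c => c • op A' (sl2 ι' G' i (g * h) x) := by
  ext ⟨k', g'⟩
  have e1 : sl2 κ' G' k g (op (kron A A') x) (k', g')
    = op (kron A A') x ((k, k'), (g, g')) := rfl
  rw [e1, op_kron, lp.coeFn_sum, Finset.sum_apply]
  refine Finset.sum_congr rfl fun i _ => ?_
  simp only [Finsupp.sum]
  rw [lp.coeFn_sum, Finset.sum_apply]
  have e2 : ∀ h : G, (A k i h • op A' (sl2 ι' G' i (g * h) x) : L2 (κ' × G')) (k', g')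
      = ∑ i', A k i h * ∑ h' ∈ (A' k' i').support,
        A' k' i' h' * x ((i, i'), (g * h, g' * h')) := by
    intro h
    rw [lp.coeFn_smul, Pi.smul_apply, smul_eq_mul, op_apply]
    unfold act
    rw [Finset.mul_sum]
    rfl
  simp only [e2]
  rw [Finset.sum_comm]

/-- the tensor product of two subspaces -/
noncomputable def tens (V : Submodule ℂ (L2 (ι × G))) (V' : Submodule ℂ (L2 (ι' × G'))) :
    Submodule ℂ (L2 ((ι × ι') × (G × G'))) :=
  (⨅ q : ι' × G', V.comap (sl1 ι G q.1 q.2 : L2 ((ι × ι') × (G × G')) →ₗ[ℂ] L2 (ι × G))) ⊓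
    (⨅ q : ι × G, V'.comap (sl2 ι' G' q.1 q.2 : L2 ((ι × ι') × (G × G')) →ₗ[ℂ] L2 (ι' × G')))

theorem mem_tens (V : Submodule ℂ (L2 (ι × G))) (V' : Submodule ℂ (L2 (ι' × G')))
    (x : L2 ((ι × ι') × (G × G'))) : x ∈ tens V V' ↔
      (∀ i' g', sl1 ι G i' g' x ∈ V) ∧ (∀ i g, sl2 ι' G' i g x ∈ V') := by
  unfold tens
  rw [Submodule.mem_inf, Submodule.mem_iInf, Submodule.mem_iInf]
  constructor
  · rintro ⟨h1, h2⟩
    exact ⟨fun i' g' => h1 (i', g'), fun i g => h2 (i, g)⟩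
  · rintro ⟨h1, h2⟩
    exact ⟨fun q => h1 q.1 q.2, fun q => h2 q.1 q.2⟩

theorem closed_tens {V : Submodule ℂ (L2 (ι × G))} {V' : Submodule ℂ (L2 (ι' × G'))}
    (hV : IsClosed (V : Set (L2 (ι × G)))) (hV' : IsClosed (V' : Set (L2 (ι' × G')))) :
    IsClosed (tens V V' : Set (L2 ((ι × ι') × (G × G')))) := by
  have : (tens V V' : Set (L2 ((ι × ι') × (G × G')))) =
      (⋂ q : ι' × G', {x | sl1 ι G q.1 q.2 x ∈ V}) ∩ (⋂ q : ι × G, {x | sl2 ι' G' q.1 q.2 x ∈ V'}) := by
    ext x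
    rw [SetLike.mem_coe, mem_tens, Set.mem_inter_iff, Set.mem_iInter, Set.mem_iInter]
    constructor
    · rintro ⟨h1, h2⟩
      exact ⟨fun q => h1 q.1 q.2, fun q => h2 q.1 q.2⟩
    · rintro ⟨h1, h2⟩
      exact ⟨fun i' g' => h1 (i', g'), fun i g => h2 (i, g)⟩
  rw [this]
  refine (isClosed_iInter fun q : ι' × G' => ?_).inter (isClosed_iInter fun q : ι × G => ?_)
  · exact hV.preimage (sl1 ι G q.1 q.2).continuous
  · exact hV'.preimage (sl2 ι' G' q.1 q.2).continuous

theorem norm_sq_tn (u : L2 (ι × G)) (v : L2 (ι' × G')) :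
    ‖tn u v‖ ^ 2 = ‖u‖ ^ 2 * ‖v‖ ^ 2 := by
  have h1 := norm_sq_eq (tn u v)
  have hs : Summable (fun p : (ι' × G') × (ι × G) => ‖v p.1‖ ^ 2 * ‖u p.2‖ ^ 2) :=
    (norm_sq_eq v).summable.mul_of_nonneg (norm_sq_eq u).summable (fun _ => by positivity)
      (fun _ => by positivity)
  have h2 := (norm_sq_eq v).mul (norm_sq_eq u) hs
  rw [← (exE ι ι' G G').symm.hasSum_iff] at h1
  have e : ((fun g => ‖(tn u v) g‖ ^ 2) ∘ (exE ι ι' G G').symm)
      = fun p : (ι' × G') × (ι × G) => ‖v p.1‖ ^ 2 * ‖u p.2‖ ^ 2 := by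
    funext p
    have : (tn u v) ((exE ι ι' G G').symm p) = u p.2 * v p.1 := rfl
    rw [Function.comp_apply, this, norm_mul]
    ring
  rw [e] at h1
  rw [h1.unique h2, mul_comm]

theorem norm_tn (u : L2 (ι × G)) (v : L2 (ι' × G')) : ‖tn u v‖ = ‖u‖ * ‖v‖ := by
  have h := norm_sq_tn u v
  rw [← mul_pow] at h
  exact (pow_left_inj₀ (norm_nonneg _) (by positivity) (by norm_num)).1 h

/-- `tn u` as an operator -/
noncomputable def tnR (u : L2 (ι × G)) : L2 (ι' × G') →L[ℂ] L2 ((ι × ι') × (G × G')) :=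
  LinearMap.mkContinuous
    { toFun := fun v => tn u v
      map_add' := by
        intro v w
        ext ⟨⟨i, i'⟩, ⟨g, g'⟩⟩
        rw [lp.coeFn_add, Pi.add_apply, tn_apply, tn_apply, tn_apply, lp.coeFn_add, Pi.add_apply,
          mul_add]
      map_smul' := by
        intro c v
        ext ⟨⟨i, i'⟩, ⟨g, g'⟩⟩
        rw [RingHom.id_apply, lp.coeFn_smul, Pi.smul_apply, tn_apply, tn_apply, lp.coeFn_smul,
          Pi.smul_apply, smul_eq_mul, smul_eq_mul]
        ring }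
    ‖u‖ (fun v => (norm_tn u v).le)

theorem tnR_apply (u : L2 (ι × G)) (v : L2 (ι' × G')) : tnR u v = tn u v := rfl

/-- `fun u => tn u v` as an operator -/
noncomputable def tnL (v : L2 (ι' × G')) : L2 (ι × G) →L[ℂ] L2 ((ι × ι') × (G × G')) :=
  LinearMap.mkContinuous
    { toFun := fun u => tn u v
      map_add' := by
        intro u w
        ext ⟨⟨i, i'⟩, ⟨g, g'⟩⟩
        rw [lp.coeFn_add, Pi.add_apply, tn_apply, tn_apply, tn_apply, lp.coeFn_add, Pi.add_apply,
          add_mul]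
      map_smul' := by
        intro c u
        ext ⟨⟨i, i'⟩, ⟨g, g'⟩⟩
        rw [RingHom.id_apply, lp.coeFn_smul, Pi.smul_apply, tn_apply, tn_apply, lp.coeFn_smul,
          Pi.smul_apply, smul_eq_mul, smul_eq_mul]
        ring }
    ‖v‖ (fun u => by
      change ‖tn u v‖ ≤ ‖v‖ * ‖u‖
      rw [norm_tn, mul_comm])

theorem tnL_apply (u : L2 (ι × G)) (v : L2 (ι' × G')) : tnL v u = tn u v := rfl

theorem op_kron_tn (A : GMat κ ι G) (A' : GMat κ' ι' G') (u : L2 (ι × G)) (v : L2 (ι' × G')) :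
    op (kron A A') (tn u v) = tn (op A u) (op A' v) := by
  ext ⟨⟨k, k'⟩, ⟨g, g'⟩⟩
  rw [op_kron, tn_apply, op_apply, op_apply]
  unfold act
  rw [Finset.sum_mul_sum]
  refine Finset.sum_congr rfl fun i _ => Finset.sum_congr rfl fun i' _ => ?_
  simp only [Finsupp.sum, tn_apply]
  rw [Finset.sum_mul_sum]
  refine Finset.sum_congr rfl fun h _ => ?_
  rw [Finset.mul_sum]
  refine Finset.sum_congr rfl fun h' _ => ?_
  ring

theorem clo_kron_le (A : GMat κ ι G) (A' : GMat κ' ι' G') :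
    clo (op (kron A A')) ≤ tens (clo (op A)) (clo (op A')) := by
  apply clo_le (closed_tens (closed_clo _) (closed_clo _))
  intro x
  rw [mem_tens]
  constructor
  · intro k' g'
    rw [sl1_kron]
    refine Submodule.sum_mem _ fun i' _ => ?_
    rw [Finsupp.sum]
    exact Submodule.sum_mem _ fun h' _ => Submodule.smul_mem _ _ (mem_clo _ _)
  · intro k g
    rw [sl2_kron]
    refine Submodule.sum_mem _ fun i _ => ?_
    rw [Finsupp.sum]
    exact Submodule.sum_mem _ fun h _ => Submodule.smul_mem _ _ (mem_clo _ _)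

theorem tn_mem_clo (A : GMat κ ι G) (A' : GMat κ' ι' G') {u : L2 (κ × G)} {v : L2 (κ' × G')}
    (hu : u ∈ clo (op A)) (hv : v ∈ clo (op A')) : tn u v ∈ clo (op (kron A A')) := by
  have h1 : ∀ x : L2 (ι × G), tn (op A x) v ∈ clo (op (kron A A')) := by
    intro x
    set F : L2 (κ' × G') →L[ℂ] L2 ((κ × κ') × (G × G')) := tnR (op A x) with hF
    have h2 : clo (op A') ≤ (clo (op (kron A A'))).comap
        (F : L2 (κ' × G') →ₗ[ℂ] L2 ((κ × κ') × (G × G'))) := by
      refine clo_le ((closed_clo _).preimage F.continuous) fun y => ?_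
      change tn (op A x) (op A' y) ∈ clo (op (kron A A'))
      rw [← op_kron_tn]
      exact mem_clo _ _
    exact h2 hv
  set F : L2 (κ × G) →L[ℂ] L2 ((κ × κ') × (G × G')) := tnL v with hF
  have h3 : clo (op A) ≤ (clo (op (kron A A'))).comap
      (F : L2 (κ × G) →ₗ[ℂ] L2 ((κ × κ') × (G × G'))) :=
    clo_le ((closed_clo _).preimage F.continuous) h1
  exact h3 hu

theorem equi_op' (A : GMat κ ι G) : Equi (op A) := equi_op A

/-- **The rank is multiplicative.** -/
theorem rk_kron (A : GMat κ ι G) (A' : GMat κ' ι' G') : rk (kron A A') = rk A * rk A' := by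
  rw [rk_eq_clo, rk_eq_clo, rk_eq_clo]
  obtain ⟨u, hu, hu2, hu3⟩ := exists_vec (closed_clo (op A))
  obtain ⟨v, hv, hv2, hv3⟩ := exists_vec (closed_clo (op A'))
  rw [vdim_of_vec (closed_clo (op (kron A A'))) (fun i => tn (u i.1) (v i.2)), hu3, hv3,
    Finset.sum_mul_sum, Fintype.sum_prod_type]
  · refine Finset.sum_congr rfl fun i _ => Finset.sum_congr rfl fun i' _ => ?_
    show (tn (u i) (v i') ((i, i'), ((1 : G), (1 : G')))).re = _
    rw [tn_apply, vec_real hu hu2 i, vec_real hv hv2 i', ← Complex.ofReal_mul, Complex.ofReal_re,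
      Complex.ofReal_re, Complex.ofReal_re]
  · rintro ⟨i, i'⟩
    exact tn_mem_clo A A' (hu i) (hv i')
  · rintro ⟨i, i'⟩ x hx
    have hx := (mem_tens _ _ _).1 (clo_kron_le A A' hx)
    rw [inner_tn]
    have h1 : ∀ q : κ' × G', (starRingEnd ℂ) (v i' q) * ⟪u i, sl1 κ G q.1 q.2 x⟫_ℂ
        = ⟪v i' q, sl2 κ' G' i 1 x q⟫_ℂ := by
      intro q
      rw [hu2 i _ (hx.1 q.1 q.2)]
      simp only [RCLike.inner_apply]
      rw [mul_comm]
      rfl
    rw [tsum_congr h1, ← lp.inner_eq_tsum, hv2 i' _ (hx.2 i 1)]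
    rfl

end Pool.Agent.TH57.AZ
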