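import Mathlib

/-!
Square-summable functions on powers of a group: tensor powers, the kernel of a convolution
operator, and its von Neumann dimension.
-/

set_option autoImplicit false

open scoped InnerProductSpace ENNReal

namespace Pool.Agent.TH57.AZ

universe u

/-- all square-summable `f` with `α * f = 0` -/
def kern {G : Type u} [Group G] (α : G →₀ ℂ) : Set (lp (fun _ : G => ℂ) 2) :=
  {f | ∀ g : G, ∑ k ∈ α.support, α k * f (k⁻¹ * g) = 0}

open Classical in
/-- one minus the squared distance from the basis vector at `1` to the kernel -/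
noncomputable def kd {G : Type u} [Group G] (α : G →₀ ℂ) : ℝ :=
  1 - Metric.infDist (lp.single 2 (1 : G) (1 : ℂ)) (kern α) ^ 2

section sums

variable {X : Type u}

theorem hasSum_pow {F : X → ℝ} (h0 : ∀ x, 0 ≤ F x) {s : ℝ} (hs : HasSum F s) (n : ℕ) :
    HasSum (fun x : Fin n → X => ∏ i, F (x i)) (s ^ n) := by
  induction n with
  | zero =>
    simp only [Finset.univ_eq_empty, Finset.prod_empty, pow_zero]
    exact hasSum_unique _
  | succ n ih =>
    have h1 : Summable (fun p : X × (Fin n → X) => F p.1 * ∏ i, F (p.2 i)) :=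
      hs.summable.mul_of_nonneg ih.summable h0 (fun x => Finset.prod_nonneg fun i _ => h0 _)
    have h2 := hs.mul ih h1
    have e : ((fun x : Fin (n + 1) → X => ∏ i, F (x i)) ∘ (Fin.consEquiv fun _ => X))
        = fun p : X × (Fin n → X) => F p.1 * ∏ i, F (p.2 i) := by
      funext p
      simp only [Function.comp_apply, Fin.consEquiv_apply, Fin.prod_univ_succ, Fin.cons_zero,
        Fin.cons_succ]
    rw [← (Fin.consEquiv (fun _ : Fin (n + 1) => X)).hasSum_iff, pow_succ', e]
    exact h2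

end sums

variable {G : Type u}

theorem summable_sq (f : lp (fun _ : G => ℂ) 2) : Summable (fun g => ‖f g‖ ^ 2) := by
  have h := (lp.memℓp f).summable (by norm_num)
  simpa using h

theorem norm_sq_eq (f : lp (fun _ : G => ℂ) 2) : HasSum (fun g => ‖f g‖ ^ 2) (‖f‖ ^ 2) := by
  have h := lp.hasSum_norm (p := 2) (by norm_num) f
  simpa using h

theorem mem_of_summable {X : Type u} {f : X → ℂ} (h : Summable (fun g => ‖f g‖ ^ 2)) :
    Memℓp f 2 := by
  apply memℓp_gen
  simpa using h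

/-- the tensor power of a square-summable function -/
noncomputable def tp (n : ℕ) (f : lp (fun _ : G => ℂ) 2) : lp (fun _ : (Fin n → G) => ℂ) 2 :=
  ⟨fun x => ∏ i, f (x i), mem_of_summable (by
    have h := (hasSum_pow (fun g => by positivity) (norm_sq_eq f) n).summable
    refine h.congr fun x => ?_
    rw [norm_prod, Finset.prod_pow])⟩

theorem tp_apply (n : ℕ) (f : lp (fun _ : G => ℂ) 2) (x : Fin n → G) :
    tp n f x = ∏ i, f (x i) := rfl

theorem norm_sq_tp (n : ℕ) (f : lp (fun _ : G => ℂ) 2) : ‖tp n f‖ ^ 2 = (‖f‖ ^ 2) ^ n := by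
  have h1 := norm_sq_eq (tp n f)
  have h2 := hasSum_pow (fun g => by positivity) (norm_sq_eq f) n
  refine h1.unique ?_
  convert h2 using 1
  funext x
  rw [tp_apply, norm_prod, Finset.prod_pow]

theorem inner_single [DecidableEq G] (x : G) (f : lp (fun _ : G => ℂ) 2) :
    ⟪(lp.single 2 x (1 : ℂ) : lp (fun _ : G => ℂ) 2), f⟫_ℂ = f x := by
  have := lp.inner_single_left (𝕜 := ℂ) x (1 : ℂ) f
  simpa using this

theorem norm_single_one [DecidableEq G] (x : G) : ‖(lp.single 2 x (1 : ℂ) : lp (fun _ : G => ℂ) 2)‖ = 1 := by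
  have h := lp.norm_single (E := fun _ : G => ℂ) (p := 2) (by norm_num) x (1 : ℂ)
  rw [h, norm_one]

/-- expansion of the squared distance from a basis vector -/
theorem norm_sub_sq_single [DecidableEq G] (x : G) (f : lp (fun _ : G => ℂ) 2) :
    ‖(lp.single 2 x (1 : ℂ) : lp (fun _ : G => ℂ) 2) - f‖ ^ 2 = 1 - 2 * (f x).re + ‖f‖ ^ 2 := by
  rw [@norm_sub_sq ℂ, norm_single_one, inner_single]
  simp

theorem tp_single [One G] [DecidableEq G] (n : ℕ) [DecidableEq (Fin n → G)] :
    tp n (lp.single 2 (1 : G) (1 : ℂ)) = lp.single 2 (1 : Fin n → G) (1 : ℂ) := by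
  ext x
  rw [tp_apply]
  by_cases h : x = 1
  · subst h
    simp [lp.single_apply]
  · have h1 : ∃ i, x i ≠ 1 := by
      by_contra hc
      push Not at hc
      exact h (funext hc)
    obtain ⟨i, hi⟩ := h1
    rw [Finset.prod_eq_zero (Finset.mem_univ i)]
    · simp [lp.single_apply, h]
    · simp [lp.single_apply, hi]

variable [Group G]

/-- the kernel as a submodule -/
noncomputable def kerS (α : G →₀ ℂ) : Submodule ℂ (lp (fun _ : G => ℂ) 2) where
  carrier := kern α
  zero_mem' := by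
    intro g
    simp
  add_mem' := by
    intro a b ha hb g
    have : ∀ k, α k * (a + b) (k⁻¹ * g) = α k * a (k⁻¹ * g) + α k * b (k⁻¹ * g) := by
      intro k
      rw [lp.coeFn_add, Pi.add_apply, mul_add]
    simp only [this, Finset.sum_add_distrib]
    rw [ha g, hb g, add_zero]
  smul_mem' := by
    intro c a ha g
    have : ∀ k, α k * (c • a) (k⁻¹ * g) = c * (α k * a (k⁻¹ * g)) := by
      intro k
      rw [lp.coeFn_smul, Pi.smul_apply, smul_eq_mul]
      ring
    simp only [this, ← Finset.mul_sum]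
    rw [ha g, mul_zero]

theorem coe_kerS (α : G →₀ ℂ) : (kerS α : Set (lp (fun _ : G => ℂ) 2)) = kern α := rfl

theorem isClosed_kerS (α : G →₀ ℂ) : IsClosed (kerS α : Set (lp (fun _ : G => ℂ) 2)) := by
  rw [coe_kerS]
  have : kern α = ⋂ g : G, {f | ∑ k ∈ α.support, α k * f (k⁻¹ * g) = 0} := by
    ext f
    simp [kern]
  rw [this]
  refine isClosed_iInter fun g => ?_
  refine isClosed_eq ?_ continuous_const
  refine continuous_finsetSum _ fun k _ => continuous_const.mul ?_
  have h : Continuous (fun f : lp (fun _ : G => ℂ) 2 => ‖f‖) := continuous_norm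
  have h2 : Continuous (fun f : lp (fun _ : G => ℂ) 2 => (f : G → ℂ)) :=
    (lp.uniformContinuous_coe (E := fun _ : G => ℂ) (p := 2)).continuous
  exact (continuous_apply _).comp h2

open Classical in
/-- the projection of the basis vector at `1` -/
theorem exists_proj (α : G →₀ ℂ) : ∃ u ∈ kern α, u 1 = (kd α : ℂ) ∧ ‖u‖ ^ 2 = kd α := by
  have hc := isClosed_kerS α
  have : CompleteSpace (kerS α) := hc.completeSpace_coe
  set δ : lp (fun _ : G => ℂ) 2 := lp.single 2 (1 : G) (1 : ℂ) with hδ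
  set u : lp (fun _ : G => ℂ) 2 := (kerS α).starProjection δ with hu
  have humem : u ∈ kerS α := Submodule.starProjection_apply_mem _ _
  have h1 : Metric.infDist δ (kern α) = ‖δ - u‖ := by
    rw [← coe_kerS, hu, Submodule.starProjection_minimal, Metric.infDist_eq_iInf]
    simp only [dist_eq_norm]
    rfl
  have h2 : ⟪u, δ - u⟫_ℂ = 0 := by
    have := Submodule.sub_starProjection_mem_orthogonal (K := kerS α) δ
    exact (Submodule.mem_orthogonal _ _).1 this u humem
  have h3 : ⟪δ, u⟫_ℂ = ⟪u, u⟫_ℂ := by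
    have h4 : ⟪δ - u, u⟫_ℂ = 0 := by
      rw [← inner_conj_symm, h2, map_zero]
    rw [inner_sub_left, sub_eq_zero] at h4
    exact h4
  have h5 : u 1 = ((‖u‖ ^ 2 : ℝ) : ℂ) := by
    rw [← inner_single, ← hδ, h3, inner_self_eq_norm_sq_to_K]
    norm_cast
  have h6 : ‖δ - u‖ ^ 2 = 1 - ‖u‖ ^ 2 := by
    rw [norm_sub_sq_single, h5, Complex.ofReal_re]
    ring
  have h7 : kd α = ‖u‖ ^ 2 := by
    unfold kd
    rw [← hδ, h1, h6]
    ring
  refine ⟨u, humem, ?_, h7.symm⟩
  rw [h5, h7]

open Classical in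
theorem kd_ge (α : G →₀ ℂ) {v : lp (fun _ : G => ℂ) 2} (hv : v ∈ kern α) :
    2 * (v 1).re - ‖v‖ ^ 2 ≤ kd α := by
  have h1 : Metric.infDist (lp.single 2 (1 : G) (1 : ℂ)) (kern α)
      ≤ ‖(lp.single 2 (1 : G) (1 : ℂ) : lp (fun _ : G => ℂ) 2) - v‖ := by
    rw [← dist_eq_norm]
    exact Metric.infDist_le_dist_of_mem hv
  have h2 := norm_sub_sq_single (1 : G) v
  have h3 : Metric.infDist (lp.single 2 (1 : G) (1 : ℂ)) (kern α) ^ 2
      ≤ ‖(lp.single 2 (1 : G) (1 : ℂ) : lp (fun _ : G => ℂ) 2) - v‖ ^ 2 :=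
    pow_le_pow_left₀ Metric.infDist_nonneg h1 2
  unfold kd
  rw [h2] at h3
  linarith

theorem kd_nonneg (α : G →₀ ℂ) : 0 ≤ kd α := by
  obtain ⟨u, _, _, h⟩ := exists_proj α
  rw [← h]
  positivity

theorem kd_le_one (α : G →₀ ℂ) : kd α ≤ 1 := by
  classical
  unfold kd
  linarith [sq_nonneg (Metric.infDist (lp.single 2 (1 : G) (1 : ℂ)) (kern α))]

/-- right translation -/
noncomputable def rt (a : G) (f : lp (fun _ : G => ℂ) 2) : lp (fun _ : G => ℂ) 2 :=
  ⟨fun g => f (g * a), mem_of_summable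
    ((summable_sq f).comp_injective (mul_left_injective a))⟩

theorem rt_apply (a : G) (f : lp (fun _ : G => ℂ) 2) (g : G) : rt a f g = f (g * a) := rfl

theorem rt_mem (α : G →₀ ℂ) (a : G) {f : lp (fun _ : G => ℂ) 2} (hf : f ∈ kern α) :
    rt a f ∈ kern α := by
  intro g
  have := hf (g * a)
  simpa only [rt_apply, mul_assoc] using this

/-- a nonzero kernel has positive dimension -/
theorem kd_pos (α : G →₀ ℂ) {f : lp (fun _ : G => ℂ) 2} (hf : f ∈ kern α) (h0 : f ≠ 0) :
    0 < kd α := by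
  have h1 : ∃ a, f a ≠ 0 := by
    by_contra hc
    push Not at hc
    exact h0 (lp.ext (funext hc))
  obtain ⟨a, ha⟩ := h1
  set v := rt a f with hv
  have hv1 : v 1 = f a := by rw [hv, rt_apply, one_mul]
  have hvm : v ∈ kern α := rt_mem α a hf
  have hvn : 0 < ‖v‖ ^ 2 := by
    have : v ≠ 0 := by
      intro h
      apply ha
      rw [← hv1, h]
      rfl
    positivity
  set t : ℝ := (‖v‖ ^ 2)⁻¹ with ht
  have ht0 : 0 < t := inv_pos.2 hvn
  set w : lp (fun _ : G => ℂ) 2 := ((t : ℂ) * (starRingEnd ℂ) (f a)) • v with hw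
  have hwm : w ∈ kern α := (kerS α).smul_mem _ hvm
  have h2 := kd_ge α hwm
  have h3 : (w 1).re = t * ‖f a‖ ^ 2 := by
    rw [hw, lp.coeFn_smul, Pi.smul_apply, hv1, smul_eq_mul, mul_assoc, mul_comm _ (f a),
      Complex.mul_conj, ← Complex.ofReal_mul, Complex.ofReal_re, Complex.normSq_eq_norm_sq]
  have h4 : ‖w‖ ^ 2 = t * ‖f a‖ ^ 2 := by
    rw [hw, norm_smul, norm_mul, mul_pow, mul_pow, Complex.norm_real, RCLike.norm_conj,
      Real.norm_eq_abs, sq_abs]
    have : t ^ 2 * ‖f a‖ ^ 2 * ‖v‖ ^ 2 = t * ‖f a‖ ^ 2 * (t * ‖v‖ ^ 2) := by ring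
    rw [this, ht, inv_mul_cancel₀ hvn.ne', mul_one]
  rw [h3, h4] at h2
  have h5 : 0 < t * ‖f a‖ ^ 2 := by
    have : 0 < ‖f a‖ := norm_pos_iff.2 ha
    positivity
  linarith

end Pool.Agent.TH57.AZ
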