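import Pool.Agent.TH57.AZ.Tens

/-!
Alternating elements and tensor powers: kernel dimensions.
-/

set_option autoImplicit false
set_option linter.unusedSectionVars false

open scoped InnerProductSpace ENNReal

namespace Pool.Agent.TH57.AZ

universe u

variable {G : Type u} [Group G]

theorem mem_kern_iff (α : G →₀ ℂ) (f : lp (fun _ : G => ℂ) 2) :
    f ∈ kern α ↔ ∀ g : G, α.sum (fun k c => c * f (k⁻¹ * g)) = 0 := Iff.rfl

/-- the alternating element `∑ sign σ · (g ∘ σ)` -/
noncomputable def wd {n : ℕ} (g : Fin n → G) : (Fin n → G) →₀ ℂ :=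
  ∑ σ : Equiv.Perm (Fin n), Finsupp.single (g ∘ σ) ((Equiv.Perm.sign σ : ℤ) : ℂ)

theorem wd_sum {n : ℕ} (g : Fin n → G) (F : (Fin n → G) → ℂ) :
    (wd g).sum (fun k c => c * F k)
      = ∑ σ : Equiv.Perm (Fin n), ((Equiv.Perm.sign σ : ℤ) : ℂ) * F (g ∘ σ) := by
  unfold wd
  rw [← Finsupp.sum_finsetSum_index (by intros; simp) (by intros; ring)]
  refine Finset.sum_congr rfl fun σ _ => ?_
  rw [Finsupp.sum_single_index (by simp)]

theorem comp_inj {n : ℕ} {g : Fin n → G} (hg : Function.Injective g) {σ τ : Equiv.Perm (Fin n)}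
    (h : g ∘ σ = g ∘ τ) : σ = τ := by
  ext i
  have := congrFun h i
  exact congrArg Fin.val (hg this)

open Classical in
theorem wd_apply {n : ℕ} {g : Fin n → G} (x : Fin n → G) :
    wd g x = ∑ σ : Equiv.Perm (Fin n), if g ∘ σ = x then ((Equiv.Perm.sign σ : ℤ) : ℂ) else 0 := by
  unfold wd
  rw [Finsupp.finsetSum_apply]
  refine Finset.sum_congr rfl fun σ _ => ?_
  rw [Finsupp.single_apply]

theorem wd_perm {n : ℕ} {g : Fin n → G} (hg : Function.Injective g) (σ : Equiv.Perm (Fin n)) :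
    wd g (g ∘ σ) = ((Equiv.Perm.sign σ : ℤ) : ℂ) := by
  classical
  rw [wd_apply, Finset.sum_eq_single σ]
  · rw [if_pos rfl]
  · intro τ _ hτ
    rw [if_neg]
    intro h
    exact hτ (comp_inj hg h)
  · intro h
    exact absurd (Finset.mem_univ _) h

theorem wd_values {n : ℕ} {g : Fin n → G} (hg : Function.Injective g) (x : Fin n → G) :
    wd g x = 0 ∨ wd g x = 1 ∨ wd g x = -1 := by
  classical
  by_cases h : ∃ σ : Equiv.Perm (Fin n), g ∘ σ = x
  · obtain ⟨σ, rfl⟩ := h
    rw [wd_perm hg]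
    right
    rcases Int.units_eq_one_or (Equiv.Perm.sign σ) with h | h
    · left
      rw [h]
      simp
    · right
      rw [h]
      simp
  · left
    push Not at h
    rw [wd_apply]
    refine Finset.sum_eq_zero fun σ _ => ?_
    rw [if_neg (h σ)]

theorem wd_ne_zero {n : ℕ} {g : Fin n → G} (hg : Function.Injective g) : wd g ≠ 0 := by
  intro h
  have h1 := wd_perm hg 1
  rw [h] at h1
  simp at h1

/-- alternating elements kill the tensor powers of vectors with dependent translates -/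
theorem wd_kern {n : ℕ} (g : Fin n → G) (c : Fin n → ℂ) (hc : c ≠ 0)
    (f : lp (fun _ : G => ℂ) 2) (hf : ∀ x : G, ∑ i, c i * f ((g i)⁻¹ * x) = 0) :
    tp n f ∈ kern (wd g) := by
  rw [mem_kern_iff]
  intro y
  rw [wd_sum g (fun k => (tp n f) (k⁻¹ * y))]
  have h1 : ∀ σ : Equiv.Perm (Fin n), (tp n f) ((g ∘ σ)⁻¹ * y)
      = ∏ i, f ((g (σ i))⁻¹ * y i) := fun σ => rfl
  simp only [h1]
  set N : Matrix (Fin n) (Fin n) ℂ := Matrix.of fun j i => f ((g j)⁻¹ * y i) with hN
  have h2 : N.det = 0 := by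
    rw [← Matrix.exists_vecMul_eq_zero_iff]
    refine ⟨c, hc, ?_⟩
    funext i
    rw [Matrix.vecMul, dotProduct]
    exact hf (y i)
  rw [Matrix.det_apply'] at h2
  exact h2

theorem kd_wedge {n : ℕ} (α : G →₀ ℂ) (g : Fin n → G)
    (hg : Function.Injective g) (hα : ∀ x, x ∈ α.support ↔ x ∈ Set.range g) (h0 : α ≠ 0) :
    kd α ^ n ≤ kd (wd g) := by
  classical
  obtain ⟨u, hu, hu1, hu2⟩ := exists_proj α
  have h1 : tp n u ∈ kern (wd g) := by
    refine wd_kern g (fun i => α (g i)) ?_ u ?_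
    · intro h
      apply h0
      ext x
      by_contra hx
      obtain ⟨i, rfl⟩ := (hα x).1 (Finsupp.mem_support_iff.2 hx)
      exact hx (congrFun h i)
    · intro x
      have h2 := hu x
      have h3 : α.support = Finset.univ.image g := by
        ext y
        rw [hα y]
        simp
      rw [h3, Finset.sum_image (fun a _ b _ h => hg h)] at h2
      exact h2
  have h2 := kd_ge (wd g) h1
  rw [norm_sq_tp, hu2] at h2
  have h3 : (tp n u) 1 = ((kd α ^ n : ℝ) : ℂ) := by
    rw [tp_apply]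
    simp only [Pi.one_apply, hu1, Finset.prod_const, Finset.card_univ, Fintype.card_fin]
    push_cast
    rfl
  rw [h3, Complex.ofReal_re] at h2
  linarith

/-- the tensor power of an element -/
noncomputable def tpF (n : ℕ) (α : G →₀ ℂ) : (Fin n → G) →₀ ℂ := by
  classical
  exact Finsupp.onFinset (Fintype.piFinset fun _ => α.support) (fun x => ∏ i, α (x i)) (by
    intro x hx
    rw [Fintype.mem_piFinset]
    intro i
    rw [Finsupp.mem_support_iff]
    intro h
    exact hx (Finset.prod_eq_zero (Finset.mem_univ i) h))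

theorem tpF_apply (n : ℕ) (α : G →₀ ℂ) (x : Fin n → G) : tpF n α x = ∏ i, α (x i) := rfl

theorem tpF_sum (n : ℕ) (α : G →₀ ℂ) (F : Fin n → G → ℂ) :
    (tpF n α).sum (fun k c => c * ∏ i, F i (k i)) = ∏ i, α.sum (fun k c => c * F i k) := by
  classical
  have h1 : (tpF n α).support ⊆ Fintype.piFinset fun _ => α.support := by
    intro x hx
    rw [Fintype.mem_piFinset]
    intro i
    rw [Finsupp.mem_support_iff] at hx ⊢
    intro h
    exact hx (Finset.prod_eq_zero (Finset.mem_univ i) h)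
  rw [Finsupp.sum_of_support_subset _ h1 _ (by intros; simp)]
  simp only [Finsupp.sum]
  rw [Finset.prod_univ_sum]
  refine Finset.sum_congr rfl fun x _ => ?_
  rw [tpF_apply, ← Finset.prod_mul_distrib]

theorem tpF_ne_zero (n : ℕ) {α : G →₀ ℂ} (h : α ≠ 0) : tpF n α ≠ 0 := by
  obtain ⟨x, hx⟩ := Finsupp.ne_iff.1 h
  intro h0
  have h1 : tpF n α (fun _ => x) = 0 := by rw [h0]; rfl
  rw [tpF_apply, Finset.prod_eq_zero_iff] at h1
  obtain ⟨i, _, hi⟩ := h1
  exact hx hi

theorem tpF_values (n : ℕ) {α : G →₀ ℂ} (h : ∀ x, α x = 0 ∨ α x = 1 ∨ α x = -1)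
    (x : Fin n → G) : tpF n α x = 0 ∨ tpF n α x = 1 ∨ tpF n α x = -1 := by
  rw [tpF_apply]
  have : ∀ s : Finset (Fin n), (∏ i ∈ s, α (x i)) = 0 ∨ (∏ i ∈ s, α (x i)) = 1 ∨
      (∏ i ∈ s, α (x i)) = -1 := by
    classical
    intro s
    induction s using Finset.induction_on with
    | empty => simp
    | insert a s ha ih =>
      rw [Finset.prod_insert ha]
      rcases h (x a) with h1 | h1 | h1 <;> rcases ih with h2 | h2 | h2 <;> rw [h1, h2] <;> simp
  exact this Finset.univ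

theorem kd_tpF (n : ℕ) (α : G →₀ ℂ) : 1 - (1 - kd α) ^ n ≤ kd (tpF n α) := by
  classical
  obtain ⟨u, hu, hu1, hu2⟩ := exists_proj α
  set δ : lp (fun _ : G => ℂ) 2 := lp.single 2 (1 : G) (1 : ℂ) with hδ
  set w := δ - u with hw
  have hw2 : ‖w‖ ^ 2 = 1 - kd α := by
    rw [hw, hδ, norm_sub_sq_single, hu1, Complex.ofReal_re, hu2]
    ring
  have hw1 : w 1 = ((1 - kd α : ℝ) : ℂ) := by
    rw [hw, lp.coeFn_sub, Pi.sub_apply, hu1, hδ]
    simp [lp.single_apply]
  set v := tp n δ - tp n w with hv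
  have hmem : v ∈ kern (tpF n α) := by
    rw [mem_kern_iff]
    intro y
    have h1 : ∀ f : lp (fun _ : G => ℂ) 2,
        (tpF n α).sum (fun k c => c * (tp n f) (k⁻¹ * y))
          = ∏ i, α.sum (fun k c => c * f (k⁻¹ * y i)) := by
      intro f
      rw [← tpF_sum n α (fun i k => f (k⁻¹ * y i))]
      rfl
    have h2 : ∀ k : Fin n → G, v (k⁻¹ * y) = (tp n δ) (k⁻¹ * y) - (tp n w) (k⁻¹ * y) := by
      intro k
      rw [hv, lp.coeFn_sub, Pi.sub_apply]
    simp only [h2, mul_sub]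
    rw [Finsupp.sum_sub, h1, h1, sub_eq_zero]
    refine Finset.prod_congr rfl fun i _ => ?_
    have h3 := (mem_kern_iff α u).1 hu (y i)
    have h4 : ∀ k : G, w (k⁻¹ * y i) = δ (k⁻¹ * y i) - u (k⁻¹ * y i) := by
      intro k
      rw [hw, lp.coeFn_sub, Pi.sub_apply]
    simp only [h4, mul_sub]
    rw [Finsupp.sum_sub, h3, sub_zero]
  have h1 := kd_ge (tpF n α) hmem
  have hv1 : v 1 = ((1 - (1 - kd α) ^ n : ℝ) : ℂ) := by
    rw [hv, lp.coeFn_sub, Pi.sub_apply, tp_apply, tp_apply]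
    simp only [Pi.one_apply, hw1, Finset.prod_const, Finset.card_univ, Fintype.card_fin]
    rw [hδ]
    simp [lp.single_apply]
  have hv2 : ‖v‖ ^ 2 = 1 - (1 - kd α) ^ n := by
    have e : ‖tp n δ - tp n w‖ ^ 2 = 1 - 2 * ((tp n w) 1).re + ‖tp n w‖ ^ 2 := by
      rw [hδ, tp_single, norm_sub_sq_single]
    rw [hv, e, norm_sq_tp, hw2, tp_apply]
    simp only [Pi.one_apply, hw1, Finset.prod_const, Finset.card_univ, Fintype.card_fin]
    rw [← Complex.ofReal_pow, Complex.ofReal_re]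
    ring
  rw [hv1, Complex.ofReal_re, hv2] at h1
  linarith

end Pool.Agent.TH57.AZ
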